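import Mathlib

/-! # Minkowski products of Dixon frameworks: flexibility of every part with three vertices -/

set_option autoImplicit false

namespace Pool.Agent.R106.Dixon

open scoped Topology
open Complex Filter

/-- Vertices of the `k`-fold product of `K_{m,m}`. -/
abbrev V (k m : ℕ) := Fin k → Bool × Fin m

/-- The parameter of the `i`-th point in the `l`-th component. -/
def xx (m l i : ℕ) : ℕ := (m + 1) ^ l * (i + 1)

/-- The Dixon framework: one side on the real axis, the other side on the imaginary axis. -/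
noncomputable def dd {k m : ℕ} (l : Fin k) (s : Bool × Fin m) : ℂ :=
  if s.1 then ((xx m l s.2 : ℝ) : ℂ) * I else ((xx m l s.2 : ℝ) : ℂ)

/-- Position of a vertex as the sum of the positions of its coordinates. -/
noncomputable def pos {k m : ℕ} (D : Fin k → Bool × Fin m → ℂ) (v : V k m) : ℂ := ∑ l, D l (v l)

/-- Adjacency: exactly one coordinate changes, and it changes its side. -/
def adj {k m : ℕ} (u v : V k m) : Prop := ∃ l, (u l).1 ≠ (v l).1 ∧ ∀ l', l' ≠ l → u l' = v l'

theorem pos_sub {k m : ℕ} (D : Fin k → Bool × Fin m → ℂ) (u v : V k m) (l : Fin k)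
    (h : ∀ l', l' ≠ l → u l' = v l') : pos D u - pos D v = D l (u l) - D l (v l) := by
  unfold pos
  rw [← Finset.sum_sub_distrib]
  rw [Finset.sum_eq_single l]
  · intro l' _ hl'
    rw [h l' hl', sub_self]
  · intro hl
    exact absurd (Finset.mem_univ l) hl

theorem pos_update {k m : ℕ} (D : Fin k → Bool × Fin m → ℂ) (l : Fin k) (f : Bool × Fin m → ℂ)
    (v : V k m) : pos (Function.update D l f) v = pos D v - D l (v l) + f (v l) := by
  unfold pos
  rw [← Finset.add_sum_erase Finset.univ (fun l' => Function.update D l f l' (v l'))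
    (Finset.mem_univ l), ← Finset.add_sum_erase Finset.univ (fun l' => D l' (v l'))
    (Finset.mem_univ l)]
  simp only [Function.update_self]
  have : ∑ x ∈ Finset.univ.erase l, Function.update D l f x (v x)
      = ∑ x ∈ Finset.univ.erase l, D x (v x) := by
    apply Finset.sum_congr rfl
    intro x hx
    rw [Function.update_of_ne (Finset.ne_of_mem_erase hx)]
  rw [this]
  ring

/-- The general flexing lemma. -/
theorem flex {ι : Type} {k m : ℕ} (D : Fin k → Bool × Fin m → ℂ) (w : ι → V k m) (l : Fin k)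
    (f : ℝ → Bool × Fin m → ℂ) (h0 : ∀ s, f 0 s = D l s) (hc : ∀ s, ContinuousAt (fun t => f t s) 0)
    (hd : ∀ᶠ t in 𝓝 (0 : ℝ), ∀ i j, dist (f t (false, i)) (f t (true, j)) =
      dist (D l (false, i)) (D l (true, j))) (a b : ι)
    (hne : ∃ᶠ t in 𝓝 (0 : ℝ), dist (pos (Function.update D l (f t)) (w a))
      (pos (Function.update D l (f t)) (w b)) ≠ dist (pos D (w a)) (pos D (w b)))
    (U : Set (ι → ℂ)) (hU : U ∈ 𝓝 (fun c => pos D (w c))) :
    ∃ q ∈ U, (∀ c d, adj (w c) (w d) → dist (pos D (w c)) (pos D (w d)) = dist (q c) (q d)) ∧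
      dist (pos D (w a)) (pos D (w b)) ≠ dist (q a) (q b) := by
  have hq : Tendsto (fun t => (fun c => pos (Function.update D l (f t)) (w c))) (𝓝 0)
      (𝓝 (fun c => pos D (w c))) := by
    rw [tendsto_pi_nhds]
    intro c
    have h1 : (fun t => pos (Function.update D l (f t)) (w c)) =
        fun t => pos D (w c) - D l (w c l) + f t (w c l) := by
      funext t
      exact pos_update D l (f t) (w c)
    rw [h1]
    have h2 : Tendsto (fun t => f t (w c l)) (𝓝 0) (𝓝 (D l (w c l))) := by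
      have := (hc (w c l)).tendsto
      rwa [h0] at this
    have h3 := (tendsto_const_nhds (x := pos D (w c) - D l (w c l))).add h2
    simpa using h3
  obtain ⟨t, ht1, ht2, ht3⟩ := (hne.and_eventually ((hq.eventually hU).and hd)).exists
  refine ⟨_, ht2, ?_, fun h => ht1 h.symm⟩
  intro c d hcd
  obtain ⟨l', hl1, hl2⟩ := hcd
  rw [dist_eq_norm, dist_eq_norm, pos_sub D _ _ l' hl2, pos_sub _ _ _ l' hl2]
  by_cases hll : l' = l
  · subst hll
    rw [Function.update_self]
    generalize w c l' = s at *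
    generalize w d l' = s' at *
    obtain ⟨b1, i⟩ := s
    obtain ⟨b2, j⟩ := s'
    rw [← dist_eq_norm, ← dist_eq_norm]
    cases b1 <;> cases b2
    · exact absurd rfl hl1
    · exact (ht3 i j).symm
    · rw [dist_comm, dist_comm (f t (true, i))]
      exact (ht3 j i).symm
    · exact absurd rfl hl1
  · rw [Function.update_of_ne hll]

theorem rot_ne (A B : ℂ) (hA : A ≠ 0) (hB : B ≠ 0) :
    ∃ᶠ t : ℝ in 𝓝 (0 : ℝ), ‖A + exp ((t : ℂ) * I) * B‖ ≠ ‖A + B‖ := by
  intro hev
  have hev' : ∀ᶠ t : ℝ in 𝓝 (0 : ℝ), ‖A + exp ((t : ℂ) * I) * B‖ = ‖A + B‖ := by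
    filter_upwards [hev] with t ht
    exact not_not.1 ht
  obtain ⟨ε, hε, h⟩ := Metric.eventually_nhds_iff.1 hev'
  set t : ℝ := min (ε / 2) 1 with ht
  have ht0 : 0 < t := lt_min (by positivity) one_pos
  have htε : t < ε := lt_of_le_of_lt (min_le_left _ _) (by linarith)
  have ht1 : t ≤ 1 := min_le_right _ _
  have key : ∀ s : ℝ, ‖A + exp (s * I) * B‖ = ‖A + B‖ →
      (A.re * B.re + A.im * B.im) * (Real.cos s - 1) =
        (A.re * B.im - A.im * B.re) * Real.sin s := by
    intro s hs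
    have h1 : ‖A + exp (s * I) * B‖ ^ 2 = ‖A + B‖ ^ 2 := by rw [hs]
    rw [← Complex.normSq_eq_norm_sq, ← Complex.normSq_eq_norm_sq, Complex.normSq_apply,
      Complex.normSq_apply] at h1
    have h2 : (exp (s * I)).re = Real.cos s := Complex.exp_ofReal_mul_I_re s
    have h3 : (exp (s * I)).im = Real.sin s := Complex.exp_ofReal_mul_I_im s
    simp only [Complex.add_re, Complex.add_im, Complex.mul_re, Complex.mul_im, h2, h3] at h1
    have h4 := Real.sin_sq_add_cos_sq s
    linear_combination (h1 - (B.re ^ 2 + B.im ^ 2) * h4) / 2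
  have k1 := key t (h (by rw [Real.dist_eq, sub_zero, abs_of_pos ht0]; exact htε))
  have k2 := key (-t) (h (by rw [Real.dist_eq, sub_zero, abs_neg, abs_of_pos ht0]; exact htε))
  rw [Real.cos_neg, Real.sin_neg] at k2
  have hs : 0 < Real.sin t := Real.sin_pos_of_pos_of_lt_pi ht0 (by linarith [Real.pi_gt_three])
  have hc : Real.cos t < 1 := by
    have h5 := Real.sin_sq_add_cos_sq t
    nlinarith [Real.cos_le_one t]
  have e1 : A.re * B.im - A.im * B.re = 0 := by
    have : (A.re * B.im - A.im * B.re) * Real.sin t = 0 := by linarith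
    rcases mul_eq_zero.1 this with h6 | h6
    · exact h6
    · exact absurd h6 hs.ne'
  have e2 : A.re * B.re + A.im * B.im = 0 := by
    rw [e1, zero_mul] at k1
    rcases mul_eq_zero.1 k1 with h6 | h6
    · exact h6
    · linarith
  have hprod : Complex.normSq A * Complex.normSq B = 0 := by
    rw [Complex.normSq_apply, Complex.normSq_apply]
    have : (A.re * A.re + A.im * A.im) * (B.re * B.re + B.im * B.im) =
        (A.re * B.im - A.im * B.re) ^ 2 + (A.re * B.re + A.im * B.im) ^ 2 := by ring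
    rw [this, e1, e2]
    ring
  rcases mul_eq_zero.1 hprod with h7 | h7
  · exact hA (Complex.normSq_eq_zero.1 h7)
  · exact hB (Complex.normSq_eq_zero.1 h7)

/-- Rotating one coordinate changes a distance. -/
theorem flex_rot {ι : Type} {k m : ℕ} (D : Fin k → Bool × Fin m → ℂ) (w : ι → V k m) (l : Fin k)
    (a b : ι) (hB : D l (w a l) - D l (w b l) ≠ 0)
    (hA : pos D (w a) - pos D (w b) ≠ D l (w a l) - D l (w b l))
    (U : Set (ι → ℂ)) (hU : U ∈ 𝓝 (fun c => pos D (w c))) :
    ∃ q ∈ U, (∀ c d, adj (w c) (w d) → dist (pos D (w c)) (pos D (w d)) = dist (q c) (q d)) ∧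
      dist (pos D (w a)) (pos D (w b)) ≠ dist (q a) (q b) := by
  refine flex D w l (fun t s => exp (t * I) * D l s) ?_ ?_ ?_ a b ?_ U hU
  · intro s
    simp
  · intro s
    fun_prop
  · refine Eventually.of_forall fun t i j => ?_
    rw [dist_eq_norm, dist_eq_norm, ← mul_sub, norm_mul, Complex.norm_exp_ofReal_mul_I, one_mul]
  · have h := rot_ne (pos D (w a) - pos D (w b) - (D l (w a l) - D l (w b l)))
      (D l (w a l) - D l (w b l)) (sub_ne_zero.2 hA) hB
    refine h.mono fun t ht => ?_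
    change dist (pos (Function.update D l (fun s => exp ((t : ℂ) * I) * D l s)) (w a))
      (pos (Function.update D l (fun s => exp ((t : ℂ) * I) * D l s)) (w b)) ≠
        dist (pos D (w a)) (pos D (w b))
    rw [dist_eq_norm, dist_eq_norm, pos_update, pos_update]
    have e1 : pos D (w a) - D l (w a l) + exp (t * I) * D l (w a l) -
        (pos D (w b) - D l (w b l) + exp (t * I) * D l (w b l)) =
        pos D (w a) - pos D (w b) - (D l (w a l) - D l (w b l)) +
          exp (t * I) * (D l (w a l) - D l (w b l)) := by ring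
    have e2 : pos D (w a) - pos D (w b) = pos D (w a) - pos D (w b) -
        (D l (w a l) - D l (w b l)) + (D l (w a l) - D l (w b l)) := by ring
    rw [e1]
    intro h5
    apply ht
    rw [h5]
    congr 1

theorem sqrt_ne (x y s : ℝ) (hx : 1 ≤ x) (hy : 1 ≤ y) (hxy : x ≠ y) (hs : s ≠ 0) (hs1 : |s| ≤ 1) :
    |√(x ^ 2 + s) - √(y ^ 2 + s)| ≠ |x - y| := by
  intro h
  have hs2 := abs_le.1 hs1
  have hx0 : 0 ≤ x ^ 2 + s := by nlinarith
  have hy0 : 0 ≤ y ^ 2 + s := by nlinarith
  have h1 := Real.sq_sqrt hx0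
  have h2 := Real.sq_sqrt hy0
  set a := √(x ^ 2 + s)
  set b := √(y ^ 2 + s)
  have h3 : (a - b) ^ 2 = (x - y) ^ 2 := by
    rw [← sq_abs, h, sq_abs]
  have h4 : a * b = x * y + s := by nlinarith
  have h5 : (a * b) ^ 2 = (x ^ 2 + s) * (y ^ 2 + s) := by rw [mul_pow, h1, h2]
  rw [h4] at h5
  have h6 : s * (x - y) ^ 2 = 0 := by nlinarith
  rcases mul_eq_zero.1 h6 with h7 | h7
  · exact hs h7
  · exact hxy (sub_eq_zero.1 (pow_eq_zero_iff (two_ne_zero)|>.1 h7))

theorem xx_pos (m l i : ℕ) : 1 ≤ xx m l i :=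
  Nat.one_le_iff_ne_zero.2 (Nat.mul_ne_zero (pow_ne_zero _ (Nat.succ_ne_zero _))
    (Nat.succ_ne_zero _))

theorem xx_inj {m l i j : ℕ} (h : xx m l i = xx m l j) : i = j := by
  unfold xx at h
  have := Nat.eq_of_mul_eq_mul_left (Nat.pos_of_ne_zero (pow_ne_zero _ (Nat.succ_ne_zero _))) h
  omega

/-- The Dixon motion changes the distance of two vertices on one side of one component. -/
theorem flex_dixon {ι : Type} {k m : ℕ} (w : ι → V k m) (l : Fin k) (a b : ι)
    (h1 : ∀ l', l' ≠ l → w a l' = w b l') (h2 : (w a l).1 = (w b l).1)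
    (h3 : (w a l).2 ≠ (w b l).2) (U : Set (ι → ℂ)) (hU : U ∈ 𝓝 (fun c => pos dd (w c))) :
    ∃ q ∈ U, (∀ c d, adj (w c) (w d) → dist (pos dd (w c)) (pos dd (w d)) = dist (q c) (q d)) ∧
      dist (pos dd (w a)) (pos dd (w b)) ≠ dist (q a) (q b) := by
  refine flex dd w l (fun t s => if s.1 then ((√(((xx m l s.2 : ℕ) : ℝ) ^ 2 - t) : ℝ) : ℂ) * I
    else ((√(((xx m l s.2 : ℕ) : ℝ) ^ 2 + t) : ℝ) : ℂ)) ?_ ?_ ?_ a b ?_ U hU
  · rintro ⟨s, i⟩
    cases s <;> simp [dd]
  · rintro ⟨s, i⟩
    cases s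
    · simp only [Bool.false_eq_true, if_false]
      fun_prop
    · simp only [if_true]
      fun_prop
  · have hev : ∀ᶠ t in 𝓝 (0 : ℝ), |t| < 1 := by
      have : Tendsto (fun t : ℝ => |t|) (𝓝 0) (𝓝 |0|) := continuous_abs.tendsto 0
      rw [abs_zero] at this
      exact this.eventually (gt_mem_nhds one_pos)
    filter_upwards [hev] with t ht i j
    have ht' := abs_lt.1 ht
    have hi : (1 : ℝ) ≤ (xx m l i : ℕ) := by exact_mod_cast xx_pos m l i
    have hj : (1 : ℝ) ≤ (xx m l j : ℕ) := by exact_mod_cast xx_pos m l j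
    simp only [dd, Bool.false_eq_true, if_false, if_true]
    rw [dist_eq_norm, dist_eq_norm]
    have e : ∀ x y : ℝ, ‖((x : ℝ) : ℂ) - (y : ℂ) * I‖ = √(x ^ 2 + y ^ 2) := by
      intro x y
      rw [Complex.norm_def, Complex.normSq_apply]
      congr 1
      simp
      ring
    rw [e, e, Real.sq_sqrt (by nlinarith), Real.sq_sqrt (by nlinarith)]
    congr 1
    ring
  · have hev : ∃ᶠ t in 𝓝 (0 : ℝ), t ≠ 0 ∧ |t| ≤ 1 := by
      rw [frequently_iff]
      intro W hW
      obtain ⟨ε, hε, hW'⟩ := Metric.mem_nhds_iff.1 hW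
      refine ⟨min (ε / 2) 1, hW' ?_, ?_, ?_⟩
      · rw [Metric.mem_ball, Real.dist_eq, sub_zero, abs_of_pos (lt_min (by positivity) one_pos)]
        exact lt_of_le_of_lt (min_le_left _ _) (by linarith)
      · exact (lt_min (by positivity) one_pos).ne'
      · rw [abs_of_pos (lt_min (by positivity) one_pos)]
        exact min_le_right _ _
    refine hev.mono fun t ht => ?_
    rw [dist_eq_norm, dist_eq_norm, pos_sub _ _ _ l h1, pos_sub _ _ _ l h1, Function.update_self]
    have hxy : ((xx m l (w a l).2 : ℕ) : ℝ) ≠ ((xx m l (w b l).2 : ℕ) : ℝ) := by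
      intro h
      apply h3
      exact Fin.ext (xx_inj (Nat.cast_injective h))
    have hi : (1 : ℝ) ≤ (xx m l (w a l).2 : ℕ) := by exact_mod_cast xx_pos m l _
    have hj : (1 : ℝ) ≤ (xx m l (w b l).2 : ℕ) := by exact_mod_cast xx_pos m l _
    rcases hb : (w a l).1 with _ | _
    · have hb' : (w b l).1 = false := by rw [← h2, hb]
      simp only [dd, hb, hb', Bool.false_eq_true, if_false]
      rw [← Complex.ofReal_sub, ← Complex.ofReal_sub, Complex.norm_real, Complex.norm_real,
        Real.norm_eq_abs, Real.norm_eq_abs]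
      exact sqrt_ne _ _ t hi hj hxy ht.1 ht.2
    · have hb' : (w b l).1 = true := by rw [← h2, hb]
      simp only [dd, hb, hb', if_true]
      rw [← sub_mul, ← sub_mul, norm_mul, norm_mul, Complex.norm_I, mul_one, mul_one,
        ← Complex.ofReal_sub, ← Complex.ofReal_sub, Complex.norm_real, Complex.norm_real,
        Real.norm_eq_abs, Real.norm_eq_abs, sub_eq_add_neg (_ ^ 2) t, sub_eq_add_neg (_ ^ 2) t]
      exact sqrt_ne _ _ (-t) hi hj hxy (neg_ne_zero.2 ht.1) (by rw [abs_neg]; exact ht.2)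

theorem dd_inj {k m : ℕ} (l : Fin k) (s s' : Bool × Fin m) (h : dd l s = dd l s') : s = s' := by
  obtain ⟨b, i⟩ := s
  obtain ⟨b', j⟩ := s'
  have hi : (1 : ℝ) ≤ (xx m l i : ℕ) := by exact_mod_cast xx_pos m l _
  have hj : (1 : ℝ) ≤ (xx m l j : ℕ) := by exact_mod_cast xx_pos m l _
  have hr := congrArg Complex.re h
  have hm := congrArg Complex.im h
  cases b <;> cases b' <;> simp [dd] at hr hm
  · simp only [Prod.mk.injEq, true_and]
    exact Fin.ext (xx_inj hr)
  · exact absurd hr (by have := xx_pos m l i; omega)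
  · exact absurd hm (by have := xx_pos m l i; omega)
  · simp only [Prod.mk.injEq, true_and]
    exact Fin.ext (xx_inj hm)

/-- Two vertices that differ in two coordinates: some distance can be changed. -/
theorem flex_two {ι : Type} {k m : ℕ} (w : ι → V k m) (a b : ι) (l1 l2 : Fin k) (hl : l1 ≠ l2)
    (h1 : w a l1 ≠ w b l1) (h2 : w a l2 ≠ w b l2) (U : Set (ι → ℂ))
    (hU : U ∈ 𝓝 (fun c => pos dd (w c))) :
    ∃ q ∈ U, (∀ c d, adj (w c) (w d) → dist (pos dd (w c)) (pos dd (w d)) = dist (q c) (q d)) ∧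
      dist (pos dd (w a)) (pos dd (w b)) ≠ dist (q a) (q b) := by
  have hB : ∀ l, w a l ≠ w b l → dd l (w a l) - dd l (w b l) ≠ 0 := fun l h h' =>
    h (dd_inj l _ _ (sub_eq_zero.1 h'))
  by_cases hex : ∃ l, w a l ≠ w b l ∧ pos dd (w a) - pos dd (w b) ≠ dd l (w a l) - dd l (w b l)
  · obtain ⟨l, hl1, hl2⟩ := hex
    exact flex_rot dd w l a b (hB l hl1) hl2 U hU
  · exfalso
    push Not at hex
    set Δ := pos dd (w a) - pos dd (w b) with hΔ
    have hsum : Δ = ∑ l : Fin k, (dd l (w a l) - dd l (w b l)) := by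
      rw [hΔ]
      unfold pos
      rw [Finset.sum_sub_distrib]
    have hsum2 : ∑ l : Fin k, (dd l (w a l) - dd l (w b l)) =
        ∑ l ∈ Finset.univ.filter (fun l => w a l ≠ w b l), Δ := by
      rw [Finset.sum_filter]
      apply Finset.sum_congr rfl
      intro l _
      split_ifs with h
      · exact (hex l h).symm
      · push Not at h
        rw [h, sub_self]
    rw [Finset.sum_const, nsmul_eq_mul] at hsum2
    have hΔ0 : Δ ≠ 0 := by
      rw [hex l1 h1]
      exact hB l1 h1
    have hcard : 2 ≤ (Finset.univ.filter (fun l => w a l ≠ w b l)).card := by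
      have : ({l1, l2} : Finset (Fin k)) ⊆ Finset.univ.filter (fun l => w a l ≠ w b l) := by
        intro l hl'
        rw [Finset.mem_insert, Finset.mem_singleton] at hl'
        rw [Finset.mem_filter]
        rcases hl' with rfl | rfl
        · exact ⟨Finset.mem_univ _, h1⟩
        · exact ⟨Finset.mem_univ _, h2⟩
      calc 2 = ({l1, l2} : Finset (Fin k)).card := (Finset.card_pair hl).symm
        _ ≤ _ := Finset.card_le_card this
    have h5 : (((Finset.univ.filter (fun l => w a l ≠ w b l)).card : ℂ) - 1) * Δ = 0 := by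
      rw [sub_mul, one_mul, ← hsum2, ← hsum, sub_self]
    rcases mul_eq_zero.1 h5 with h6 | h6
    · rw [sub_eq_zero] at h6
      have : (Finset.univ.filter (fun l => w a l ≠ w b l)).card = 1 := by exact_mod_cast h6
      omega
    · exact hΔ0 h6

/-- **Core lemma.** A part with at least three vertices is not rigid. -/
theorem core {ι : Type} {k m : ℕ} (w : ι → V k m) (hw : Function.Injective w) (a b c : ι)
    (hab : a ≠ b) (hac : a ≠ c) (hbc : b ≠ c) (U : Set (ι → ℂ))
    (hU : U ∈ 𝓝 (fun c => pos dd (w c))) :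
    ∃ q ∈ U, (∀ c d, adj (w c) (w d) → dist (pos dd (w c)) (pos dd (w d)) = dist (q c) (q d)) ∧
      ∃ a b, dist (pos dd (w a)) (pos dd (w b)) ≠ dist (q a) (q b) := by
  by_cases htwo : ∃ x y : ι, ∃ l1 l2, l1 ≠ l2 ∧ w x l1 ≠ w y l1 ∧ w x l2 ≠ w y l2
  · obtain ⟨x, y, l1, l2, hl, h1, h2⟩ := htwo
    obtain ⟨q, hq1, hq2, hq3⟩ := flex_two w x y l1 l2 hl h1 h2 U hU
    exact ⟨q, hq1, hq2, x, y, hq3⟩
  · push Not at htwo
    obtain ⟨l, hl⟩ : ∃ l, w a l ≠ w b l := by
      by_contra h
      push Not at h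
      exact hab (hw (funext h))
    have hl' : ∀ l', l' ≠ l → w a l' = w b l' := fun l' h => htwo a b l l' h.symm hl
    obtain ⟨r, hr⟩ : ∃ l, w a l ≠ w c l := by
      by_contra h
      push Not at h
      exact hac (hw (funext h))
    have hr' : ∀ l', l' ≠ r → w a l' = w c l' := fun l' h => htwo a c r l' h.symm hr
    have hrl : r = l := by
      by_contra hne
      have e1 : w b l ≠ w c l := by
        rw [← hr' l (Ne.symm hne)]
        exact fun h => hl h.symm
      have e2 : w b r = w c r := htwo b c l r (Ne.symm hne) e1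
      rw [← hl' r hne] at e2
      exact hr e2
    subst hrl
    have hbc' : ∀ l', l' ≠ r → w b l' = w c l' := fun l' h => (hl' l' h).symm.trans (hr' l' h)
    have hbcr : w b r ≠ w c r := by
      intro h
      apply hbc
      apply hw
      funext l'
      by_cases h5 : l' = r
      · rw [h5]
        exact h
      · exact hbc' l' h5
    have hsnd : ∀ x y : ι, w x r ≠ w y r → (w x r).1 = (w y r).1 → (w x r).2 ≠ (w y r).2 :=
      fun x y h1 h2 h3 => h1 (Prod.ext h2 h3)
    by_cases e1 : (w a r).1 = (w b r).1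
    · obtain ⟨q, hq1, hq2, hq3⟩ := flex_dixon w r a b hl' e1 (hsnd a b hl e1) U hU
      exact ⟨q, hq1, hq2, a, b, hq3⟩
    · by_cases e2 : (w a r).1 = (w c r).1
      · obtain ⟨q, hq1, hq2, hq3⟩ := flex_dixon w r a c hr' e2 (hsnd a c hr e2) U hU
        exact ⟨q, hq1, hq2, a, c, hq3⟩
      · have e3 : (w b r).1 = (w c r).1 := by
          revert e1 e2
          cases (w a r).1 <;> cases (w b r).1 <;> cases (w c r).1 <;> simp
        obtain ⟨q, hq1, hq2, hq3⟩ := flex_dixon w r b c hbc' e3 (hsnd b c hbcr e3) U hU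
        exact ⟨q, hq1, hq2, b, c, hq3⟩

end Pool.Agent.R106.Dixon
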