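import Mathlib
import Pool.Agent.R106.Dixon

/-! # The product graph: degrees, edges, collinear parts of neighbourhoods -/

set_option autoImplicit false

namespace Pool.Agent.R106.Dixon

open scoped Topology
open Complex Filter

theorem digits_inj (B : ℕ) (k : ℕ) (a b : Fin k → ℕ) (ha : ∀ l, a l < B) (hb : ∀ l, b l < B)
    (h : ∑ l : Fin k, B ^ (l : ℕ) * a l = ∑ l : Fin k, B ^ (l : ℕ) * b l) : a = b := by
  induction k with
  | zero => exact Subsingleton.elim _ _
  | succ k ih =>
    rw [Fin.sum_univ_succ, Fin.sum_univ_succ] at h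
    simp only [Fin.val_zero, pow_zero, one_mul, Fin.val_succ, pow_succ'] at h
    simp only [mul_assoc] at h
    rw [← Finset.mul_sum, ← Finset.mul_sum] at h
    have hB : 0 < B := lt_of_le_of_lt (Nat.zero_le _) (ha 0)
    have h0 : a 0 = b 0 := by
      have := congrArg (· % B) h
      simpa [Nat.add_mul_mod_self_left, Nat.mod_eq_of_lt (ha 0), Nat.mod_eq_of_lt (hb 0)] using this
    have h1 : ∑ l : Fin k, B ^ (l : ℕ) * a l.succ = ∑ l : Fin k, B ^ (l : ℕ) * b l.succ := by
      rw [h0] at h
      exact Nat.eq_of_mul_eq_mul_left hB (Nat.add_left_cancel h)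
    have h2 := ih (fun l => a l.succ) (fun l => b l.succ) (fun l => ha _) (fun l => hb _) h1
    funext l
    refine Fin.cases h0 (fun l => congrFun h2 l) l

theorem dd_re {k m : ℕ} (l : Fin k) (s : Bool × Fin m) :
    (dd l s).re = (((m + 1) ^ (l : ℕ) * (if s.1 then 0 else (s.2 : ℕ) + 1) : ℕ) : ℝ) := by
  obtain ⟨b, i⟩ := s
  cases b
  · simp only [dd, Bool.false_eq_true, if_false]
    rw [Complex.ofReal_re]
    rfl
  · simp only [dd, if_true]
    rw [Complex.re_ofReal_mul, Complex.I_re, mul_zero, mul_zero, Nat.cast_zero]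

theorem dd_im {k m : ℕ} (l : Fin k) (s : Bool × Fin m) :
    (dd l s).im = (((m + 1) ^ (l : ℕ) * (if s.1 then (s.2 : ℕ) + 1 else 0) : ℕ) : ℝ) := by
  obtain ⟨b, i⟩ := s
  cases b
  · simp only [dd, Bool.false_eq_true, if_false]
    rw [Complex.ofReal_im, mul_zero, Nat.cast_zero]
  · simp only [dd, if_true]
    rw [Complex.im_ofReal_mul, Complex.I_im, mul_one]
    rfl

theorem pos_inj {k m : ℕ} : Function.Injective (pos dd : V k m → ℂ) := by
  intro u v h
  have hre := congrArg Complex.re h
  have him := congrArg Complex.im h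
  unfold pos at hre him
  rw [Complex.re_sum, Complex.re_sum] at hre
  rw [Complex.im_sum, Complex.im_sum] at him
  simp only [dd_re] at hre
  simp only [dd_im] at him
  rw [← Nat.cast_sum, ← Nat.cast_sum] at hre him
  have h1 := digits_inj (m + 1) k _ _ (fun l => by
    have := (u l).2.2
    split_ifs <;> omega) (fun l => by
    have := (v l).2.2
    split_ifs <;> omega) (Nat.cast_injective hre)
  have h2 := digits_inj (m + 1) k _ _ (fun l => by
    have := (u l).2.2
    split_ifs <;> omega) (fun l => by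
    have := (v l).2.2
    split_ifs <;> omega) (Nat.cast_injective him)
  funext l
  have e1 := congrFun h1 l
  have e2 := congrFun h2 l
  revert e1 e2
  obtain ⟨b, i⟩ := u l
  obtain ⟨c, j⟩ := v l
  intro e1 e2
  cases b <;> cases c <;> simp at e1 e2
  · rw [Fin.ext e1]
  · rw [Fin.ext e2]

theorem xx_ne {m l l' i i' : ℕ} (hi : i < m) (hi' : i' < m) (h : l ≠ l') :
    xx m l i ≠ xx m l' i' := by
  have key : ∀ l l' i i' : ℕ, i < m → i' < m → l < l' → xx m l i < xx m l' i' := by
    intro l l' i i' hi _ hl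
    unfold xx
    calc (m + 1) ^ l * (i + 1) < (m + 1) ^ l * (m + 1) :=
          Nat.mul_lt_mul_of_pos_left (by omega) (Nat.pos_of_ne_zero (pow_ne_zero _ (by omega)))
      _ = (m + 1) ^ (l + 1) := (pow_succ _ _).symm
      _ ≤ (m + 1) ^ l' := Nat.pow_le_pow_right (by omega) hl
      _ ≤ (m + 1) ^ l' * (i' + 1) := Nat.le_mul_of_pos_right _ (by omega)
  rcases Nat.lt_or_gt_of_ne h with h1 | h1
  · exact (key l l' i i' hi hi' h1).ne
  · exact (key l' l i' i hi' hi h1).ne'

/-- The neighbours of `v`. -/
def nb {k m : ℕ} (v : V k m) (x : Fin k × Fin m) : V k m :=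
  Function.update v x.1 (!(v x.1).1, x.2)

theorem adj_nb {k m : ℕ} (v : V k m) (x : Fin k × Fin m) : adj v (nb v x) := by
  refine ⟨x.1, ?_, ?_⟩
  · unfold nb
    rw [Function.update_self]
    cases (v x.1).1 <;> simp
  · intro l' hl'
    unfold nb
    rw [Function.update_of_ne hl']

theorem exists_nb {k m : ℕ} (v u : V k m) (h : adj v u) : ∃ x, u = nb v x := by
  obtain ⟨l, h1, h2⟩ := h
  refine ⟨(l, (u l).2), ?_⟩
  funext l'
  by_cases hl : l' = l
  · subst hl
    unfold nb
    simp only [Function.update_self]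
    refine Prod.ext ?_ rfl
    revert h1
    cases (v l').1 <;> cases (u l').1 <;> simp
  · unfold nb
    rw [Function.update_of_ne hl]
    exact (h2 l' hl).symm

theorem nb_inj {k m : ℕ} (v : V k m) : Function.Injective (nb v) := by
  rintro ⟨l, j⟩ ⟨l', j'⟩ h
  have hl : l = l' := by
    by_contra hne
    have h1 := congrFun h l
    unfold nb at h1
    simp only [Function.update_self] at h1
    rw [Function.update_of_ne hne] at h1
    have h2 := congrArg Prod.fst h1
    revert h2
    cases (v l).1 <;> simp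
  subst hl
  have h1 := congrFun h l
  unfold nb at h1
  simp only [Function.update_self] at h1
  have h2 := congrArg Prod.snd h1
  simp only at h2
  rw [h2]

theorem pos_nb {k m : ℕ} (v : V k m) (x : Fin k × Fin m) :
    pos dd (nb v x) = pos dd v - dd x.1 (v x.1) + dd x.1 (!(v x.1).1, x.2) := by
  have h : ∀ l', l' ≠ x.1 → nb v x l' = v l' := by
    intro l' hl'
    unfold nb
    rw [Function.update_of_ne hl']
  have h1 := pos_sub dd (nb v x) v x.1 h
  have h2 : nb v x x.1 = (!(v x.1).1, x.2) := by
    unfold nb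
    rw [Function.update_self]
  rw [h2] at h1
  linear_combination h1

/-- Two coordinates do not both contribute two points to a collinear set of neighbours. -/
theorem not_two {k m : ℕ} (v : V k m) (S : Set (Fin k × Fin m))
    (hS : Collinear ℝ ((fun x => pos dd (nb v x)) '' S)) (l l' : Fin k) (hl : l ≠ l')
    (i j i' j' : Fin m) (hij : i ≠ j) (hij' : i' ≠ j') (h1 : (l, i) ∈ S) (h2 : (l, j) ∈ S)
    (h3 : (l', i') ∈ S) (h4 : (l', j') ∈ S) : False := by
  rw [collinear_iff_exists_forall_eq_smul_vadd] at hS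
  obtain ⟨p0, v0, h⟩ := hS
  have key : ∀ (l : Fin k) (i j : Fin m), i ≠ j → (l, i) ∈ S → (l, j) ∈ S →
      ((v l).1 = false → v0.re = 0 ∧ v0.im ≠ 0) ∧ ((v l).1 = true → v0.im = 0 ∧ v0.re ≠ 0) := by
    intro l i j hij h1 h2
    obtain ⟨r, hr⟩ := h _ ⟨_, h1, rfl⟩
    obtain ⟨r', hr'⟩ := h _ ⟨_, h2, rfl⟩
    simp only [pos_nb, vadd_eq_add] at hr hr'
    have hd : dd l (!(v l).1, i) - dd l (!(v l).1, j) = ((r - r' : ℝ) : ℂ) * v0 := by
      rw [Complex.real_smul] at hr hr'
      push_cast
      linear_combination hr - hr'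
    have hx : ((xx m l i : ℕ) : ℝ) - ((xx m l j : ℕ) : ℝ) ≠ 0 := by
      intro h5
      apply hij
      exact Fin.ext (xx_inj (Nat.cast_injective (sub_eq_zero.1 h5)))
    constructor
    · intro hb
      rw [hb] at hd
      simp only [Bool.not_false, dd, if_true] at hd
      have e1 := congrArg Complex.re hd
      have e2 := congrArg Complex.im hd
      simp at e1 e2
      have hr0 : r - r' ≠ 0 := by
        intro h5
        rw [h5, zero_mul] at e2
        exact hx e2
      refine ⟨?_, ?_⟩
      · rcases e1 with h6 | h6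
        · exact absurd h6 hr0
        · exact h6
      · intro h6
        rw [h6, mul_zero] at e2
        exact hx e2
    · intro hb
      rw [hb] at hd
      simp only [Bool.not_true, dd, Bool.false_eq_true, if_false] at hd
      have e1 := congrArg Complex.re hd
      have e2 := congrArg Complex.im hd
      simp at e1 e2
      have hr0 : r - r' ≠ 0 := by
        intro h5
        rw [h5, zero_mul] at e1
        exact hx e1
      refine ⟨?_, ?_⟩
      · rcases e2 with h6 | h6
        · exact absurd h6 hr0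
        · exact h6
      · intro h6
        rw [h6, mul_zero] at e1
        exact hx e1
  obtain ⟨k1, k2⟩ := key l i j hij h1 h2
  obtain ⟨k3, k4⟩ := key l' i' j' hij' h3 h4
  obtain ⟨r, hr⟩ := h _ ⟨_, h1, rfl⟩
  obtain ⟨r', hr'⟩ := h _ ⟨_, h3, rfl⟩
  simp only [pos_nb, vadd_eq_add, Complex.real_smul] at hr hr'
  rcases hb : (v l).1 with _ | _
  · rcases hb' : (v l').1 with _ | _
    · have e1 := congrArg Complex.re hr
      have e2 := congrArg Complex.re hr'
      simp only [hb, hb', Complex.add_re, Complex.sub_re, dd_re, Bool.not_false, if_true,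
        Bool.false_eq_true, if_false, Complex.mul_re, Complex.ofReal_re, Complex.ofReal_im,
        (k1 hb).1, mul_zero, Nat.cast_zero] at e1 e2
      apply xx_ne (l := l) (l' := l') (v l).2.2 (v l').2.2 (fun h5 => hl (Fin.ext h5))
      have : ((xx m l (v l).2 : ℕ) : ℝ) = ((xx m l' (v l').2 : ℕ) : ℝ) := by
        unfold xx
        linarith
      exact Nat.cast_injective this
    · exact (k4 hb').2 (k1 hb).1
  · rcases hb' : (v l').1 with _ | _
    · exact (k2 hb).2 (k3 hb').1
    · have e1 := congrArg Complex.im hr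
      have e2 := congrArg Complex.im hr'
      simp only [hb, hb', Complex.add_im, Complex.sub_im, dd_im, Bool.not_true, if_true,
        Bool.false_eq_true, if_false, Complex.mul_im, Complex.ofReal_re, Complex.ofReal_im,
        (k2 hb).1, mul_zero, Nat.cast_zero] at e1 e2
      apply xx_ne (l := l) (l' := l') (v l).2.2 (v l').2.2 (fun h5 => hl (Fin.ext h5))
      have : ((xx m l (v l).2 : ℕ) : ℝ) = ((xx m l' (v l').2 : ℕ) : ℝ) := by
        unfold xx
        linarith
      exact Nat.cast_injective this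

theorem sum_bound {k m : ℕ} (c : Fin k → ℕ) (h1 : ∀ l, c l ≤ m)
    (h2 : ∀ l l', l ≠ l' → ¬ (2 ≤ c l ∧ 2 ≤ c l')) : ∑ l, c l ≤ m + k := by
  by_cases hex : ∃ l, 2 ≤ c l
  · obtain ⟨l, hl⟩ := hex
    rw [← Finset.add_sum_erase Finset.univ c (Finset.mem_univ l)]
    have h3 : ∑ x ∈ Finset.univ.erase l, c x ≤ ∑ x ∈ Finset.univ.erase l, 1 := by
      apply Finset.sum_le_sum
      intro x hx
      have := h2 l x (Finset.ne_of_mem_erase hx).symm
      omega
    have h4 : ∑ x ∈ Finset.univ.erase l, 1 ≤ k := by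
      rw [Finset.sum_const, smul_eq_mul, mul_one]
      calc (Finset.univ.erase l).card ≤ (Finset.univ : Finset (Fin k)).card :=
            Finset.card_le_card (Finset.erase_subset _ _)
        _ = k := by simp
    have := h1 l
    omega
  · push Not at hex
    calc ∑ l, c l ≤ ∑ l : Fin k, 1 := Finset.sum_le_sum fun l _ => by
          have := hex l
          omega
      _ = k := by simp
      _ ≤ m + k := by omega

/-- A collinear set of neighbours of `v` has at most `m + k` elements. -/
theorem collinear_card {k m : ℕ} (v : V k m) (S : Finset (Fin k × Fin m))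
    (hS : Collinear ℝ ((fun x => pos dd (nb v x)) '' (S : Set (Fin k × Fin m)))) :
    S.card ≤ m + k := by
  classical
  have h1 : S.card = ∑ l : Fin k, (Finset.univ.filter (fun j : Fin m => (l, j) ∈ S)).card := by
    rw [Finset.card_eq_sum_card_fiberwise (f := Prod.fst) (t := Finset.univ)
      (fun x _ => Finset.mem_univ _)]
    apply Finset.sum_congr rfl
    intro l _
    refine Finset.card_bij (fun x _ => x.2) ?_ ?_ ?_
    · rintro ⟨l', j⟩ hx
      rw [Finset.mem_filter] at hx
      rw [Finset.mem_filter]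
      obtain ⟨hx1, hx2⟩ := hx
      simp only at hx2
      subst hx2
      exact ⟨Finset.mem_univ _, hx1⟩
    · rintro ⟨l', j⟩ hx ⟨l'', j'⟩ hy h
      rw [Finset.mem_filter] at hx hy
      simp only at h hx hy
      rw [hx.2, hy.2, h]
    · intro j hj
      rw [Finset.mem_filter] at hj
      exact ⟨(l, j), Finset.mem_filter.2 ⟨hj.2, rfl⟩, rfl⟩
  rw [h1]
  apply sum_bound
  · intro l
    calc _ ≤ (Finset.univ : Finset (Fin m)).card := Finset.card_le_card (Finset.filter_subset _ _)
      _ = m := by simp
  · rintro l l' hl ⟨h2, h3⟩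
    obtain ⟨i, hi, j, hj, hij⟩ := Finset.one_lt_card.1 (lt_of_lt_of_le one_lt_two h2)
    obtain ⟨i', hi', j', hj', hij'⟩ := Finset.one_lt_card.1 (lt_of_lt_of_le one_lt_two h3)
    exact not_two v _ hS l l' hl i j i' j' hij hij' (Finset.mem_filter.1 hi).2
      (Finset.mem_filter.1 hj).2 (Finset.mem_filter.1 hi').2 (Finset.mem_filter.1 hj').2

end Pool.Agent.R106.Dixon
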